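import Mathlib

namespace Pool.Agent.H.MP_a8ef43_co
open Set

variable {E : Type*} {n : ℕ}

def Itv (A : Set (Fin n → E)) (D : Set E) : Prop :=
  ∀ (X : Set E) (f : E → E), X ⊆ D → MapsTo f X D → InjOn f X →
    (∀ x : Fin n → E, (∀ i, x i ∈ X) → (x ∈ A ↔ f ∘ x ∈ A)) →
    ∀ x y : Fin n → E, (∀ i, (x i ∈ X ∧ y i = f (x i)) ∨ (x i ∉ D ∧ y i = x i)) → (x ∈ A ↔ y ∈ A)

variable {A : Set (Fin n → E)}

lemma Itv.inter {D1 D2 : Set E} (h1 : Itv A D1) (h2 : Itv A D2) : Itv A (D1 ∩ D2) := by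
  classical
  intro X f hX hf hi hp x y hxy
  apply h1 (X ∪ (D1 \ D2)) (fun e => if e ∈ X then f e else e)
  · rintro e (he | he)
    · exact (hX he).1
    · exact he.1
  · rintro e he
    by_cases h : e ∈ X
    · simp only [h, if_true]; exact (hf h).1
    · simp only [h, if_false]; exact (he.resolve_left h).1
  · intro a ha b hb hab
    by_cases h : a ∈ X <;> by_cases h' : b ∈ X <;> simp only [h, h', if_true, if_false] at hab
    · exact hi h h' hab
    · exact absurd (hab ▸ (hf h).2) (hb.resolve_left h').2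
    · exact absurd (hab ▸ (hf h').2) (ha.resolve_left h).2
    · exact hab
  · intro z hz
    apply h2 X f (fun e he => (hX he).2) (fun e he => (hf he).2) hi hp
    intro i
    by_cases h : z i ∈ X
    · left; simp [h]
    · right; exact ⟨((hz i).resolve_left h).2, by simp [h]⟩
  · intro i
    rcases hxy i with h | h
    · left; exact ⟨Or.inl h.1, by simp [h.1, h.2]⟩
    · by_cases h' : x i ∈ D1
      · left
        have h3 : x i ∉ D2 := fun h3 => h.1 ⟨h', h3⟩
        have h4 : x i ∉ X := fun h4 => h3 (hX h4).2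
        exact ⟨Or.inr ⟨h', h3⟩, by simp [h4, h.2]⟩
      · right; exact ⟨h', h.2⟩

def tp (A : Set (Fin n → E)) (u : Fin n → E) : Set (Fin n × Fin n) × Set (Fin n → Fin n) :=
  ({p | u p.1 = u p.2}, {φ | u ∘ φ ∈ A})

lemma Itv.diff {I K : Set E} (hI : Itv A I) (hK : Itv A K)
    (hc : ∀ u : Fin n → E, (∀ i, u i ∈ K) → ∃ u' : Fin n → E, (∀ i, u' i ∈ K \ I) ∧ tp A u' = tp A u) :
    Itv A (I \ K) := by
  classical
  intro X f hX hf hi hp x y hxy
  by_cases h0 : ∃ i, x i ∈ K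
  swap
  · push Not at h0
    apply hI X f (fun e he => (hX he).1) (fun e he => (hf he).1) hi hp
    intro i
    rcases hxy i with h | h
    · exact Or.inl h
    · exact Or.inr ⟨fun h' => h.1 ⟨h', h0 i⟩, h.2⟩
  obtain ⟨i0, hi0⟩ := h0
  let u : Fin n → E := fun i => if x i ∈ K then x i else x i0
  have hu : ∀ i, u i ∈ K := fun i => by
    simp only [u]; split_ifs with h
    · exact h
    · exact hi0
  obtain ⟨u', hu', ht⟩ := hc u hu
  have t1 : ∀ i j, u' i = u' j ↔ u i = u j := fun i j =>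
    Set.ext_iff.1 (congrArg Prod.fst ht) (i, j)
  have t2 : ∀ φ : Fin n → Fin n, u' ∘ φ ∈ A ↔ u ∘ φ ∈ A := fun φ =>
    Set.ext_iff.1 (congrArg Prod.snd ht) φ
  let h : E → E := fun e => if he : ∃ i, u i = e then u' he.choose else e
  have hh : ∀ i, h (u i) = u' i := fun i => by
    have he : ∃ j, u j = u i := ⟨i, rfl⟩
    simp only [h, dif_pos he]
    exact (t1 _ _).2 he.choose_spec
  have key := hK (range u) h (by rintro _ ⟨i, rfl⟩; exact hu i)
    (by rintro _ ⟨i, rfl⟩; rw [hh]; exact (hu' i).1)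
    (by rintro _ ⟨i, rfl⟩ _ ⟨j, rfl⟩ hij; rw [hh, hh] at hij; exact (t1 _ _).1 hij)
    (by
      intro z hz
      choose φ hφ using hz
      have e1 : z = u ∘ φ := funext fun i => (hφ i).symm
      have e2 : h ∘ z = u' ∘ φ := funext fun i => by simp only [Function.comp, ← hφ i, hh]
      rw [e2, e1, t2])
  have s1 := key x (fun i => if x i ∈ K then u' i else x i) (fun i => by
    by_cases hx : x i ∈ K
    · left
      have : x i = u i := by simp [u, hx]
      exact ⟨⟨i, this.symm⟩, by rw [if_pos hx, this, hh]⟩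
    · right; exact ⟨hx, by rw [if_neg hx]⟩)
  have s2 := hI X f (fun e he => (hX he).1) (fun e he => (hf he).1) hi hp
    (fun i => if x i ∈ K then u' i else x i) (fun i => if x i ∈ K then u' i else y i) (fun i => by
      by_cases hx : x i ∈ K
      · right; simp only [hx, if_true]; exact ⟨(hu' i).2, trivial⟩
      · simp only [hx, if_false]
        rcases hxy i with h | h
        · exact Or.inl h
        · exact Or.inr ⟨fun h' => h.1 ⟨h', hx⟩, h.2⟩)
  have s3 := key y (fun i => if x i ∈ K then u' i else y i) (fun i => by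
    by_cases hx : x i ∈ K
    · left
      have e1 : x i = u i := by simp [u, hx]
      have e2 : y i = x i := by
        rcases hxy i with h | h
        · exact absurd hx (hX h.1).2
        · exact h.2
      exact ⟨⟨i, by rw [e2, e1]⟩, by rw [if_pos hx, e2, e1, hh]⟩
    · right
      refine ⟨?_, by rw [if_neg hx]⟩
      rcases hxy i with h | h
      · rw [h.2]; exact (hf h.1).2
      · rw [h.2]; exact hx)
  rw [s1, s2, s3]

noncomputable def rk (A : Set (Fin n → E)) (D : Set E) : ℕ :=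
  (tp A '' {u | ∀ i, u i ∈ D}).ncard

lemma rk_mono {D D' : Set E} (h : D ⊆ D') : rk A D ≤ rk A D' :=
  ncard_le_ncard (image_mono fun _ hu i => h (hu i)) (toFinite _)

lemma Itv.diff' {I K L : Set E} (hI : Itv A I) (hK : Itv A K) (hL : L ⊆ K \ I)
    (hr : rk A K ≤ rk A L) : Itv A (I \ K) := by
  apply hI.diff hK
  intro u hu
  have : tp A '' {u | ∀ i, u i ∈ L} = tp A '' {u | ∀ i, u i ∈ K} :=
    eq_of_subset_of_ncard_le (image_mono fun _ hu i => (hL (hu i)).1) hr (toFinite _)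
  obtain ⟨u', h1, h2⟩ : tp A u ∈ tp A '' {u | ∀ i, u i ∈ L} := this ▸ ⟨u, hu, rfl⟩
  exact ⟨u', fun i => hL (h1 i), h2⟩

def FU (A : Set (Fin n → E)) (r : ℕ) (X : Set E) : Prop :=
  ∃ S : Set (Set E), S.Finite ∧ (∀ I ∈ S, Itv A I ∧ rk A I < r) ∧ ⋃₀ S = X

def DU (A : Set (Fin n → E)) (X : Set E) : Prop :=
  ∃ S : Set (Set E), S.Finite ∧ (∀ I ∈ S, Itv A I) ∧ S.PairwiseDisjoint id ∧ ⋃₀ S = X

def Comp (A : Set (Fin n → E)) : Prop :=
  ∀ D, Itv A D → ∃ S : Set (Set E), S.Finite ∧ (∀ I ∈ S, Itv A I) ∧ ⋃₀ S = Dᶜ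

lemma FU.union {r : ℕ} {X Y : Set E} (hX : FU A r X) (hY : FU A r Y) : FU A r (X ∪ Y) := by
  obtain ⟨S, s1, s2, rfl⟩ := hX
  obtain ⟨T, t1, t2, rfl⟩ := hY
  exact ⟨S ∪ T, s1.union t1, fun I hI => hI.elim (s2 I) (t2 I), sUnion_union S T⟩

lemma FU.diff (hc : Comp A) {r : ℕ} {Y I : Set E} (hY : FU A r Y) (hI : Itv A I) :
    FU A r (Y \ I) := by
  obtain ⟨S, s1, s2, rfl⟩ := hY
  obtain ⟨T, t1, t2, t3⟩ := hc I hI
  refine ⟨image2 (· ∩ ·) S T, s1.image2 _ t1, ?_, ?_⟩
  · rintro _ ⟨a, ha, b, hb, rfl⟩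
    exact ⟨(s2 a ha).1.inter (t2 b hb), (rk_mono inter_subset_left).trans_lt (s2 a ha).2⟩
  · rw [diff_eq, ← t3]
    ext e
    constructor
    · rintro ⟨_, ⟨a, ha, b, hb, rfl⟩, he⟩
      exact ⟨⟨a, ha, he.1⟩, ⟨b, hb, he.2⟩⟩
    · rintro ⟨⟨a, ha, he⟩, ⟨b, hb, he'⟩⟩
      exact ⟨_, ⟨a, ha, b, hb, rfl⟩, he, he'⟩

lemma FU.diff_sUnion (hc : Comp A) {r : ℕ} {Y : Set E} (hY : FU A r Y) {F : Set (Set E)}
    (hF : F.Finite) (h : ∀ I ∈ F, Itv A I) : FU A r (Y \ ⋃₀ F) := by
  induction F, hF using Set.Finite.induction_on with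
  | empty => simpa using hY
  | @insert a s _ _ ih =>
    rw [sUnion_insert, union_comm, ← diff_diff]
    exact (ih fun I hI => h I (mem_insert_of_mem _ hI)).diff hc (h a (mem_insert _ _))

lemma split (hc : Comp A) (r : ℕ) {S : Set (Set E)} (hS : S.Finite)
    (h : ∀ I ∈ S, Itv A I ∧ rk A I < r + 1) :
    ∃ (F : Set (Set E)) (Y : Set E), F.Finite ∧ (∀ I ∈ F, Itv A I) ∧ F.PairwiseDisjoint id ∧
      FU A r Y ∧ ⋃₀ S = ⋃₀ F ∪ Y := by
  induction S, hS using Set.Finite.induction_on with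
  | empty => exact ⟨∅, ∅, finite_empty, by simp, by simp, ⟨∅, finite_empty, by simp, by simp⟩, by simp⟩
  | @insert K s _ _ ih =>
    obtain ⟨F, Y, f1, f2, f3, f4, f5⟩ := ih fun I hI => h I (mem_insert_of_mem _ hI)
    obtain ⟨k1, k2⟩ := h K (mem_insert _ _)
    rw [sUnion_insert, f5]
    by_cases hA : ∃ I ∈ F, FU A r (K \ I)
    · obtain ⟨I, hI, hU⟩ := hA
      refine ⟨F, Y ∪ (K \ I), f1, f2, f3, f4.union hU, ?_⟩
      ext e
      have : e ∈ I → e ∈ ⋃₀ F := fun he => ⟨I, hI, he⟩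
      simp only [mem_union, mem_diff]
      tauto
    · push Not at hA
      have hB : ∀ I ∈ F, Itv A (I \ K) := by
        intro I hI
        have hK : FU A (r + 1) K := ⟨{K}, finite_singleton _, by rintro _ rfl; exact ⟨k1, k2⟩, by simp⟩
        obtain ⟨T, t1, t2, t3⟩ := hK.diff hc (f2 I hI)
        have : ∃ L ∈ T, r ≤ rk A L := by
          by_contra hcon
          push Not at hcon
          exact hA I hI ⟨T, t1, fun L hL => ⟨(t2 L hL).1, hcon L hL⟩, t3⟩
        obtain ⟨L, hL, hr⟩ := this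
        exact (f2 I hI).diff' k1 (t3 ▸ subset_sUnion_of_mem hL) (by omega)
      refine ⟨insert K ((· \ K) '' F), Y, (f1.image _).insert _, ?_, ?_, f4, ?_⟩
      · rintro _ (rfl | ⟨I, hI, rfl⟩)
        · exact k1
        · exact hB I hI
      · apply PairwiseDisjoint.insert
        · rintro _ ⟨I, hI, rfl⟩ _ ⟨J, hJ, rfl⟩ hne
          have : I ≠ J := fun h => hne (by rw [h])
          exact (f3 hI hJ this).mono diff_subset diff_subset
        · rintro _ ⟨I, _, rfl⟩ _
          exact disjoint_sdiff_right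
      · ext e
        simp only [mem_union, sUnion_insert, sUnion_image, mem_iUnion, mem_diff, mem_sUnion]
        constructor
        · rintro (h | ⟨I, hI, he⟩ | h)
          · exact Or.inl (Or.inl h)
          · by_cases hK : e ∈ K
            · exact Or.inl (Or.inl hK)
            · exact Or.inl (Or.inr ⟨I, hI, he, hK⟩)
          · exact Or.inr h
        · rintro ((h | ⟨I, hI, he, _⟩) | h)
          · exact Or.inl h
          · exact Or.inr (Or.inl ⟨I, hI, he⟩)
          · exact Or.inr (Or.inr h)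

lemma FU.du (hc : Comp A) : ∀ (r : ℕ) (X : Set E), FU A r X → DU A X := by
  intro r
  induction r with
  | zero =>
    rintro X ⟨S, _, s2, rfl⟩
    have : S = ∅ := eq_empty_of_forall_notMem fun I hI => absurd (s2 I hI).2 (Nat.not_lt_zero _)
    subst this
    exact ⟨∅, finite_empty, by simp, by simp, rfl⟩
  | succ r ih =>
    rintro X ⟨S, s1, s2, rfl⟩
    obtain ⟨F, Y, f1, f2, f3, f4, f5⟩ := split hc r s1 s2
    obtain ⟨G, g1, g2, g3, g4⟩ := ih _ (f4.diff_sUnion hc f1 f2)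
    refine ⟨F ∪ G, f1.union g1, fun I hI => hI.elim (f2 I) (g2 I), ?_, ?_⟩
    · apply f3.union g3
      intro I hI J hJ _
      have : J ⊆ Y \ ⋃₀ F := g4 ▸ subset_sUnion_of_mem hJ
      exact disjoint_left.2 fun e he he' => (this he').2 ⟨I, hI, he⟩
    · rw [sUnion_union, g4, f5, union_diff_self]

theorem main (hc : Comp A) (D : Set E) (hD : Itv A D) : DU A Dᶜ := by
  obtain ⟨S, s1, s2, s3⟩ := hc D hD
  exact FU.du hc (rk A univ + 1) _
    ⟨S, s1, fun I hI => ⟨s2 I hI, Nat.lt_succ_of_le (rk_mono (subset_univ _))⟩, s3⟩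

end Pool.Agent.H.MP_a8ef43_co
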